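import Pool.Agent.U365.POW.J
import Pool.Agent.Results.MP_c076ed_nt.MultiplicativeValues

/-!
# Uniform boundedness for all parameters of height near `s(m)`, `m - φ(m)` or `α m + β f(m)`

Let `s(m)` be the sum of the proper divisors of `m`. Let `q ≥ 2`, `d ≥ 1`, `κ ≥ 0`, `t > 0` and `e = d t + κ < 1`. There is `B`
such that for every function `G` with steps bounded below by a positive constant and growth at most `v ^ d`, for a set of `m` of
lower density at least `1 - e`, ALL maps `z ^ q + c` with `|H(c) - G (s(m))| ≤ s(m) ^ κ` have at most `B` rational preperiodic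
points; and the same holds for `m - φ(m)`. More precisely this holds for almost all `m` with a divisor `≥ m ^ (e + ρ)` which is a
prime or the product of two different primes, and for the values `g = α m + β f(m)` of multiplicative functions with `f p = p + c`
at the primes, uniformly in `|α|, |β| ≤ N ^ δ` and with a power saving in the number of the exceptional `m`.

Proof. The number of the exceptional `c` of height at most `X` is `O (X ^ t)` (starting theorem). Let `m = k v p` with large primes
`p ≠ v`. Then `g = A v p + B (v + p) + B c`, `A = α k + β f(k)`, `B = β c f(k)`, and so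
`(A v + B) (A p + B) = A g + B² - A B c`: for given `g`, `k`, `α`, `β` there are only `N^o(1)` possibilities for `p` and `v`.

If the exponent `e` is smaller than `1/2`, no divisor is needed: the property holds for almost all `m` (for all `m ≤ N` but at
most `N / (log N) ^ A`, for every `A`), for all `α ≠ 0`, `β`. Here we use the divisors `D` of `m` without small prime factors:
`α m` is congruent to `g` modulo `f(D)`; if the size of all such `D` is inconvenient, then `m = R D` where the prime factors of
`D` are so large that `D` lies in a short interval which is given by `R` and `g`.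
-/

set_option autoImplicit false

namespace Pool.Agent.Results.MP_c076ed_nt.AliquotValues

open Pool.Agent.U365.POW (Law NearAll law_of law_mono)
open Pool.Agent.N733.TG (Expanding)
open Pool.Agent.Results.MP_c076ed_nt.FewExceptionalUnicritical (preperiodic exceptional)
open Pool.Agent.Results.MP_c076ed_nt.MultiplicativeValues (height height_le)

/-- ALL maps `z ^ q + c`, `c` a rational number with `|H(c) - G g| ≤ g ^ κ`, have at most `B` rational preperiodic points. -/
def Near (q B : ℕ) (G : ℕ → ℝ) (κ : ℝ) (g : ℕ) : Prop :=
  ∀ c : ℚ, |(height c : ℝ) - G g| ≤ (g : ℝ) ^ κ → (preperiodic q c).encard ≤ B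

/-- **Theorem.** Let `q ≥ 2`, `t > 0`. There is `B` such that for all `G` with steps `≥ a > 0` and growth at most `v^d` and all `κ ≥
0` with `e = d t + κ < 1`: the property `Near` holds for the values of similar functions as the aliquot sum with the exponent
`e` (`Law`): if this exponent is smaller than `1/2`, then (1) for ALL `α m + β f(m)` at almost all `m`, and so for `s(m)` and `m
- φ(m)` for almost all `m`; in general, (2) at almost all the `m` with a divisor `≥ m ^ (e + ρ)` which is a prime or the product
of two different primes, and for `s(m)` and `m - φ(m)` for a set of `m` of lower density at least `1 - (e)`. -/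
theorem result : ∀ q : ℕ, 2 ≤ q → ∀ t : ℝ, 0 < t → ∃ B : ℕ,
      ∀ (G : ℕ → ℝ) (d κ : ℝ), Expanding G d → 0 ≤ κ → d * t + κ < 1 →
        Law (d * t + κ) (Near q B G κ) := by
  intro e he s hs0
  obtain ⟨B, C, h⟩ := FewExceptionalUnicritical.result e he s hs0
  refine ⟨B, fun G d κ hG hκ hds => ?_⟩
  have a := law_of (fun _ : ℚ => True) (fun c => (preperiodic e c).encard ≤ B) (fun c => (height c : ℝ)) hG
    hs0.le hκ hds (fun ε hε => by
      refine ⟨max C 0, fun X hX => ?_⟩
      have hset : {t : ℚ | (True ∧ ¬ (preperiodic e t).encard ≤ B) ∧ (height t : ℝ) ≤ X} = exceptional e B X := by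
        ext c
        constructor
        · rintro ⟨⟨_, h1⟩, h2⟩
          obtain ⟨h5, h6⟩ := (height_le c X).1 h2
          exact ⟨h5, h6, not_le.1 h1⟩
        · rintro ⟨h5, h6, h1⟩
          exact ⟨⟨trivial, not_le.2 h1⟩, (height_le c X).2 ⟨h5, h6⟩⟩
      rw [hset]
      obtain ⟨h5, h6⟩ := h X hX
      refine ⟨h5, h6.trans ?_⟩
      calc C * X ^ s ≤ max C 0 * X ^ s := mul_le_mul_of_nonneg_right (le_max_left _ _) (by positivity)
        _ ≤ max C 0 * X ^ (s + ε) := by
            apply mul_le_mul_of_nonneg_left _ (le_max_right _ _)
            exact Real.rpow_le_rpow_of_exponent_le hX (by linarith))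
  exact law_mono a (fun g hg c hw => hg c trivial hw)

end Pool.Agent.Results.MP_c076ed_nt.AliquotValues
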