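import Pool.Agent.U536.CF.F
import Pool.Agent.Results.MP_c076ed_nt.MultiplicativeValues

/-!
# Uniform boundedness for all parameters near integers with a large common factor with a value of a multiplicative function

Let `f` be a positive multiplicative function of at most polynomial growth such that `f p ≤ M p` for the large primes `p`,
with different values at different large primes; for example Euler's function or the sum of the divisors. Let `G` have
steps bounded below by a positive constant and growth at most `v^d`, for example `α v^d`. Let `b < 1` and `0 ≤ c < 2 b -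
1`. For all `m ≤ N` but `N exp (-(log N)^c)`, for EVERY integer `w ≥ exp ((log N)^b)` with `gcd(w, f(m)) ≥ w^ρ`, ALL
rational numbers `c` with `|H(c) - G w| ≤ w^κ` are such that the map `z ^ e + c` has at most `B` rational preperiodic
points (`B` depends only on `e`, `d`, `κ`, `ρ`), if `e ≥ 2`, `d ≥ 1`, `0 ≤ κ < ρ ≤ 1`. The integers `w` include all large
divisors of `f(m)` and their multiples by small integers; for Euler's function, the orders of the elements of the group of
units modulo `m`.

Proof. Write `m = k u` with `u` squarefree and composed of primes larger than `N^(1/J)`, `J = (log N)^a`, and `k ≤ exp (4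
(log N)^a)`; this is possible for all `m ≤ N` but very few. If `v ∣ f(k) f(u)`, then `v = g v'` with `g ∣ f(k)` and `v' ∣
∏ f(p)`, and the number of such `u ≤ N / k` is at most `N / (k v')` times `(log N)^O(J)` times the number `τ_J(v')` of the
ordered factorizations of `v'` into `J` factors. The inequality `τ_J^q ≤ τ_K` for `K ≥ J^q` and Hölder's inequality bound
the sum over the sparse set of the exceptional `v`. The file `MultiplicativeValues` of the starting library treats the
integers `w = f(m)`, with `N / (log N)^U` exceptions.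
-/

set_option autoImplicit false

namespace Pool.Agent.Results.MP_c076ed_nt.CommonFactors

open Pool.Agent.Results.MP_c076ed_nt.FewExceptionalUnicritical (preperiodic exceptional)
open Pool.Agent.N733.TG (LM Expanding lm_totient lm_sigma expanding_pow)
open Pool.Agent.U536.CF (Common common_good common_of_dvd common_order)
open Pool.Agent.Results.MP_c076ed_nt.MultiplicativeValues (height height_le)

/-- **Uniform boundedness for all parameters near integers with a large common factor with a value of a multiplicative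
function.** Let `f` be multiplicative and positive, of at most polynomial growth, with `f p ≤ M p` at the large primes,
and injective there. Let `G` have steps `≥ a > 0` and growth at most `v^d`. Let `b < 1` and `0 ≤ c < 2 b - 1`, `e ≥ 2`, `d
≥ 1`, `0 ≤ κ < ρ ≤ 1`. For all large `N`, for all `m ≤ N` but `N exp (-(log N)^c)`, for EVERY integer `w ≥ exp ((log
N)^b)` with `gcd(w, f(m)) ≥ w^ρ`, ALL rational numbers `c` with `|H(c) - G w| ≤ w^κ` are such that the map `z ^ e + c` has
at most `B` rational preperiodic points (`B` depends only on `e`, `d`, `κ`, `ρ`). All divisors `w ≥ exp ((log N)^b)` of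
`f(m)` are such integers `w`, and for Euler's function the orders `≥ exp ((log N)^b)` of the units modulo `m`. Euler's
function and the sum of the divisors are examples of `f`, and `α v^d` with `α > 0`, `d ≥ 1` is an example of `G`. -/
theorem result :
    (∀ e : ℕ, 2 ≤ e → ∀ d κ ρ : ℝ, 1 ≤ d → 0 ≤ κ → κ < ρ → ρ ≤ 1 → ∃ B : ℕ,
      ∀ f : ℕ → ℕ, LM f → ∀ G : ℕ → ℝ, Expanding G d → ∀ b₁ c₁ : ℝ, b₁ < 1 → 0 ≤ c₁ → c₁ < 2 * b₁ - 1 →
      ∃ N₀ : ℕ, ∀ N : ℕ, N₀ ≤ N →
      ({m : ℕ | 1 ≤ m ∧ m ≤ N ∧ ¬ ∀ w : ℕ, Common f b₁ ρ N m w → ∀ c : ℚ, |(height c : ℝ) - G w| ≤ (w : ℝ) ^ κ →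
        (preperiodic e c).encard ≤ B}.ncard : ℝ) ≤ N * Real.exp (-(Real.log N ^ c₁))) ∧
    (LM Nat.totient ∧ LM (fun m => ∑ d ∈ m.divisors, d)) ∧
    (∀ α d : ℝ, 0 < α → 1 ≤ d → Expanding (fun v => α * (v : ℝ) ^ d) d) ∧
    (∀ (f : ℕ → ℕ) (b ρ : ℝ) (N m w : ℕ), ρ ≤ 1 → Real.exp (Real.log N ^ b) ≤ (w : ℝ) → w ∣ f m → Common f b ρ N m w) ∧
    ∀ (b ρ : ℝ) (N m : ℕ), ρ ≤ 1 → ∀ x : (ZMod m)ˣ, Real.exp (Real.log N ^ b) ≤ (orderOf x : ℝ) →
      Common Nat.totient b ρ N m (orderOf x) := by
  refine ⟨?_, ⟨lm_totient, lm_sigma⟩, fun α d hα hd => expanding_pow hα hd, fun f b ρ N m w hρ hw hd => common_of_dvd hρ hw hd,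
    fun b ρ N m hρ x hx => common_order hρ x hx⟩
  intro e he d κ ρ hd hκ hκ1 hρ
  obtain ⟨s, hs⟩ : ∃ s : ℝ, s = (ρ - κ) / (2 * d) := ⟨_, rfl⟩
  have hs0 : 0 < s := by
    rw [hs]
    exact div_pos (by linarith) (by linarith)
  have hds : d * s + κ < ρ := by
    have h1 : d * s = (ρ - κ) / 2 := by
      rw [hs]
      field_simp
    rw [h1]
    linarith
  obtain ⟨B, C, h⟩ := FewExceptionalUnicritical.result e he s hs0
  refine ⟨B, fun f hf G hG b₁ c₁ hb hc hcb => ?_⟩
  obtain ⟨N₀, hN₀⟩ := common_good (fun _ : ℚ => True) (fun c => (preperiodic e c).encard ≤ B) (fun c => (height c : ℝ)) hf hG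
    hs0.le hκ hds hρ hb hc hcb (fun ε hε => by
      refine ⟨max C 0, fun X hX => ?_⟩
      have hset : {t : ℚ | (True ∧ ¬ (preperiodic e t).encard ≤ B) ∧ (height t : ℝ) ≤ X} = exceptional e B X := by
        ext c
        constructor
        · rintro ⟨⟨_, h1⟩, h2⟩
          obtain ⟨h5, h6⟩ := (height_le c X).1 h2
          exact ⟨h5, h6, not_le.1 h1⟩
        · rintro ⟨h5, h6, h1⟩
          exact ⟨⟨trivial, not_le.2 h1⟩, (height_le c X).2 ⟨h5, h6⟩⟩
      rw [hset]
      obtain ⟨h5, h6⟩ := h X hX
      refine ⟨h5, h6.trans ?_⟩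
      calc C * X ^ s ≤ max C 0 * X ^ s := mul_le_mul_of_nonneg_right (le_max_left _ _) (by positivity)
        _ ≤ max C 0 * X ^ (s + ε) := by
            apply mul_le_mul_of_nonneg_left _ (le_max_right _ _)
            exact Real.rpow_le_rpow_of_exponent_le hX (by linarith))
  refine ⟨N₀, fun N hN => le_trans (le_of_eq ?_) (hN₀ N hN)⟩
  congr 2
  ext m
  simp only [Set.mem_ofPred_eq, forall_true_left]

end Pool.Agent.Results.MP_c076ed_nt.CommonFactors
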