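import Pool.Agent.Results.MP_c076ed_nt.RandomOrbitMaps
import Pool.Agent.U125.NO.Seq

/-!
# MP_c076ed_nt: the preperiodic points of rational maps given by normal vectors or normal words

For a number field `K` of degree `m` with an integral basis `ω` an integral vector `c` with `(d + 2) m`
coordinates gives integers `b, a_0, ..., a_d` of `K`. We consider the rational maps

  `f(x) = F(x) / (b G(x))`,  `F = a_0 + a_1 x + ... + a_d x^d`,  `deg G < d`.

`Exact ω D c` (definition of the starting result `RandomOrbitMaps`) says that `b ≠ 0`, `deg F = d`, and for ALL
polynomials `G ≠ 0` over `O_K` of degree less than `d`, whose leading coefficient divides a power of `D`: `f` has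
degree `d`, and for ALL number fields `L ⊇ K` whose degree over `K` is not divisible by `d` the preperiodic
points of `f` in `ℙ¹(L)` are exactly `∞` and the zeros of `G` in `L`.

**Theorem.** Let `c_0, c_1, …` be a normal orbit (`NormalOrbit`): the orbit of an integral vector under a
finite family of integral affine maps along ANY normal sequence of indices, where the family is wide (for all
`q` prime to some `q₀` the maps are bijective modulo `q`, and the vector can be moved to at least the
proportion `ε > 0`, not depending on `q`, of all vectors modulo `q`). Then `Exact ω D c_n` holds for all `n`
outside a set of density zero, for all number fields `K` of degree `m`, all integral bases and all `D ≥ 1`. In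
particular `f` has at most `d` preperiodic points in `ℙ¹(L)`, for all `G` and all `L` as above.

Examples: (1) `c_n = (⌊b ^ n x_i⌋)_i` for ANY vector `x` of real numbers which is normal to the base `b ≥ 2`;
(2) the orbit of any vector `v ≠ 0` along ANY normal word in matrices which generate the special linear
group modulo all `q` prime to some `q₀` (generators of a thin group); (3) vectors of integers whose
digits are chosen from a restricted set of vectors. The starting result `RandomOrbitMaps` is about almost every
random orbit in (2).

Proof. The exceptional vectors are a pronull set (`RandomOrbitMaps`), and normal orbits visit pronull sets only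
at times of density zero (engine `Pool.Agent.U125.NO`).
-/

set_option autoImplicit false

namespace Pool.Agent.Results.MP_c076ed_nt.NormalSequences

open NumberField Filter Topology
open Pool.Agent.U125.NO (NormalOrbit Examples examples)
open Pool.Agent.Results.MP_c076ed_nt.RandomOrbitMaps (Exact)

/-- **The preperiodic points of rational maps along normal orbits.** -/
theorem result (d m : ℕ) (hd : 2 ≤ d) :
    (∀ c : ℕ → Fin (d + 2) × Fin m → ℤ, NormalOrbit c →
      ∀ (K : Type) [Field K] [NumberField K] (ω : Module.Basis (Fin m) ℤ (𝓞 K)) (D : ℕ), 0 < D →
        Tendsto (fun N : ℕ => (({n : ℕ | n < N ∧ ¬ Exact ω D (c n)}.ncard : ℕ) : ℝ) / (N : ℝ))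
          atTop (𝓝 0)) ∧
    Examples (Fin (d + 2) × Fin m) := by
  refine ⟨fun c hc K _ _ ω D hD => ?_, examples _⟩
  have h1 := (Pool.Agent.Results.MP_c076ed_nt.RandomOrbitMaps.result d m hd).1 K ω D hD
  exact hc.avoids (fun x => ¬ Exact ω D x) h1

end Pool.Agent.Results.MP_c076ed_nt.NormalSequences
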