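import Pool.Agent.U405.RS.F
import Pool.Agent.U405.RS.F2
import Pool.Agent.Results.MP_c076ed_nt.FewExceptionalUnicritical

/-!
# Uniform boundedness of preperiodic points of `z ^ e + c` for heights near values of `f` at thin sets of arguments

Let `f` be a positive multiplicative function of at most polynomial growth which for each `a ≥ 1` is injective at the powers
`p ^ a` of the large primes and at most `M p ^ a` there; for example Euler's function or the sum of the divisors. Let `α > 0`, `d ≥ 1` (an arbitrary power) and `0 ≤ κ < ρ`. For every `e ≥ 2` there is `B` such that for ALL rational numbers `c`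
with `|H(c) - α f(v)^d| ≤ f(v)^κ` the map `z ^ e + c` has at most `B` rational preperiodic points, for almost all `v` (with a
saving of any power of the logarithm) in each of these sets:

* the values of any integer polynomial without repeated roots, of degree `< 1 / ρ`;
* the shifted primes `p + a`, `a` any integer, if `ρ < 1`;
* the intervals `(x, x + y]`, `x^τ ≤ y ≤ x`, for every `τ > ρ`, `τ ≤ 1`.

The bound `B` depends only on `e`, `d`, `κ` and `ρ`. Since `ρ > κ` is arbitrary, `κ = 0` gives polynomials of any degree and
intervals of length `x^τ` for every `τ > 0`.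

Proof. Own tool `Pool.Agent.U405.RS`: let `S` be a set of at least `N^(θ + δ)` integers up to `N` with at most
`B g^ω(k) |S| / k` multiples of `k` for every `k ≤ N^δ`, and let `W` have at most `C X^θ` elements up to `X`. Then `f(m) ∈ W` for at
most `|S| / (log N)^U` of the `m` in `S`. For this write `m = k w` with `k` composed of the primes `≤ z = N^(1 / J)`, `J` a small
multiple of `log log N`. By Rankin's method with the weights `g^ω(k)` one has `k ≤ N^η` for most `m`; and `w` has at most `J`
prime factors and exponents `≤ J`, so that `w` is determined by `f(w)` up to `(J τ(f(w)) + 1)^J = N^o(1)` possibilities. The three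
kinds of sets satisfy the hypothesis: for polynomials because `P` has at most `g` zeros modulo every prime power (lifting of
zeros by the identity `U P + V P' = R`), for shifted primes by the Brun-Titchmarsh inequality (library). The exceptional
parameters are counted by the starting theorem `FewExceptionalUnicritical` of this problem.
-/

set_option autoImplicit false

namespace Pool.Agent.Results.MP_c076ed_nt.SparseArguments

open Pool.Agent.N733.TG (Expanding expanding_pow)
open Pool.Agent.U405.RS (PM Sparse sparse_good sparse_set' examples)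
open Pool.Agent.Results.MP_c076ed_nt.FewExceptionalUnicritical (preperiodic exceptional)

/-- the height of a rational number -/
def height (c : ℚ) : ℕ := max c.num.natAbs c.den

lemma height_le (c : ℚ) (X : ℝ) : (height c : ℝ) ≤ X ↔ ((|c.num| : ℤ) : ℝ) ≤ X ∧ (c.den : ℝ) ≤ X := by
  unfold height
  rw [Nat.cast_max, max_le_iff, Nat.cast_natAbs]

/-- for all rational `c` with `|H(c) - G v| ≤ v ^ κ` the map `z ^ e + c` has at most `B` rational preperiodic points -/
def Clear (e B : ℕ) (G : ℕ → ℝ) (κ : ℝ) (v : ℕ) : Prop :=
  ∀ c : ℚ, |(height c : ℝ) - G v| ≤ (v : ℝ) ^ κ → (preperiodic e c).encard ≤ B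

/-- **Uniform boundedness near `G (f v)` for the `v` in thin sets.** For all `e ≥ 2`, `d ≥ 1` and `0 ≤ κ < ρ` there is `B` such
that for all `f` in the class `PM`, all `G` with steps `≥ const > 0` and growth at most `v^d` and all `U` the property that for
ALL rational numbers `c` with `|H(c) - G v| ≤ v^κ` the map `z ^ e + c` has at most `B` rational preperiodic points holds in the
sense `Sparse ρ f`. (`Sparse ρ f`: with a saving of `(log x)^U` it holds at `f v` for almost all `v` among the positive values of every integer
polynomial without repeated roots of degree `< 1 / ρ`; among the shifted primes `p + a` for every `a`, if `ρ < 1`; and in all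
intervals `(x, x + y]`, `x^τ ≤ y ≤ x`, `ρ < τ ≤ 1`.) Euler's function and the sum of the divisors are in the class `PM`, and
`α v^d` with `α > 0`, `d ≥ 1` is an example of `G`. -/
theorem result :
    (∀ e : ℕ, 2 ≤ e → ∀ d κ ρ : ℝ, 1 ≤ d → 0 ≤ κ → κ < ρ → ∃ B : ℕ,
      ∀ f : ℕ → ℕ, PM f → ∀ G : ℕ → ℝ, Expanding G d → ∀ U : ℕ, Sparse ρ f (Clear e B G κ) U) ∧
    (PM Nat.totient ∧ PM (fun m => ∑ d ∈ m.divisors, d) ∧ PM (fun m => m)) ∧
    ∀ α d : ℝ, 0 < α → 1 ≤ d → Expanding (fun v => α * (v : ℝ) ^ d) d := by
  refine ⟨fun e he d κ ρ hd hκ hκ1 => ?_, examples, fun α d hα hd => expanding_pow hα hd⟩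
  obtain ⟨s, hs⟩ : ∃ s : ℝ, s = (ρ - κ) / d := ⟨_, rfl⟩
  have hs0 : 0 < s := by
    rw [hs]
    exact div_pos (by linarith) (by linarith)
  have hds : d * s + κ = ρ := by
    rw [hs]
    field_simp
    ring
  obtain ⟨B, C, h⟩ := FewExceptionalUnicritical.result e he s hs0
  refine ⟨B, fun f hf G hG U => ?_⟩
  rw [← hds]
  refine (sparse_good (fun _ : ℚ => True) (fun c => (preperiodic e c).encard ≤ B) (fun c => (height c : ℝ)) hf hG
    hs0.le hκ (fun ε hε => ?_) U).imp (fun v hv c hc => hv c trivial hc)
  refine ⟨max C 0, fun X hX => ?_⟩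
  have hset : {t : ℚ | (True ∧ ¬ (preperiodic e t).encard ≤ B) ∧ (height t : ℝ) ≤ X} = exceptional e B X := by
    ext c
    constructor
    · rintro ⟨⟨_, h1⟩, h2⟩
      obtain ⟨h5, h6⟩ := (height_le c X).1 h2
      exact ⟨h5, h6, not_le.1 h1⟩
    · rintro ⟨h5, h6, h1⟩
      exact ⟨⟨trivial, not_le.2 h1⟩, (height_le c X).2 ⟨h5, h6⟩⟩
  rw [hset]
  obtain ⟨h5, h6⟩ := h X hX
  refine ⟨h5, h6.trans ?_⟩
  calc C * X ^ s ≤ max C 0 * X ^ s := mul_le_mul_of_nonneg_right (le_max_left _ _) (by positivity)
    _ ≤ max C 0 * X ^ (s + ε) := by
        apply mul_le_mul_of_nonneg_left _ (le_max_right _ _)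
        exact Real.rpow_le_rpow_of_exponent_le hX (by linarith)

end Pool.Agent.Results.MP_c076ed_nt.SparseArguments
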